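import Pool.Agent.Helper65.OH2.Goals
import Pool.Agent.Helper40.OH.CROSS

/-! # CROSS2: shift of a grid, two counts at once -/

set_option autoImplicit false

namespace Pool.Agent.Helper24.OH2

open Pool.Agent.Helper65.OH Finset

/-- Over all shifts, a set of steps crosses the grid at most `D` times as often as it has elements. -/
theorem sum_cross (D d : ℕ) (p : ℕ → ℕ → ℕ) (T : Finset ℕ)
    (hp : ∀ t ∈ T, ∀ k < D, p (t + 1) k ≤ p t k + 1 ∧ p t k ≤ p (t + 1) k + 1) :
    ∑ o ∈ range d, (T.filter fun t =>
      ∃ k < D, (p t k + o) / d ≠ (p (t + 1) k + o) / d).card ≤ D * T.card := by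
  have h1 : ∀ o ∈ range d, (T.filter fun t =>
      ∃ k < D, (p t k + o) / d ≠ (p (t + 1) k + o) / d).card ≤
      ∑ t ∈ T, ∑ k ∈ range D,
        if (p t k + o) / d ≠ (p (t + 1) k + o) / d then 1 else 0 := by
    intro o _
    rw [card_filter]
    refine sum_le_sum fun t _ => ?_
    split_ifs with h
    · obtain ⟨k, hk, hne⟩ := h
      have := single_le_sum (f := fun k => if (p t k + o) / d ≠ (p (t + 1) k + o) / d
        then 1 else 0) (fun _ _ => Nat.zero_le _) (mem_range.2 hk)
      simpa [hne] using this
    · exact Nat.zero_le _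
  refine (sum_le_sum h1).trans ?_
  rw [sum_comm]
  have h3 : ∀ t ∈ T, ∑ o ∈ range d, ∑ k ∈ range D,
      (if (p t k + o) / d ≠ (p (t + 1) k + o) / d then 1 else 0) ≤ D := by
    intro t ht
    rw [sum_comm]
    have h4 : ∀ k ∈ range D, ∑ o ∈ range d,
        (if (p t k + o) / d ≠ (p (t + 1) k + o) / d then 1 else 0) ≤ 1 := by
      intro k hk
      obtain ⟨a, b⟩ := hp t ht k (mem_range.1 hk)
      have := Pool.Agent.Helper40.OH.card_le_one' (d := d) a b
      rwa [card_filter] at this
    refine (sum_le_sum h4).trans ?_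
    simp
  refine (sum_le_sum h3).trans ?_
  simp [mul_comm]

theorem CROSS2 : CROSS2_stmt := by
  intro D r d H N _ p hd hp
  have h1 := sum_cross D d p (range r) (fun t ht => hp t (mem_range.1 ht))
  have h2 := sum_cross D d p ((range r).filter N)
    (fun t ht => hp t (mem_range.1 (mem_filter.1 ht).1))
  rw [card_range] at h1
  have h3 : ∀ o, (((range r).filter N).filter fun t =>
      ∃ k < D, (p t k + o) / d ≠ (p (t + 1) k + o) / d) = (range r).filter fun t => N t ∧
        ∃ k < D, (p t k + o) / d ≠ (p (t + 1) k + o) / d := by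
    intro o
    rw [filter_filter]
  simp only [h3] at h2
  by_contra hcon
  push Not at hcon
  have h5 := sum_lt_sum_of_nonempty ⟨0, mem_range.2 hd⟩ fun o ho => hcon o (mem_range.1 ho)
  rw [sum_const, card_range, smul_eq_mul, ← mul_sum, sum_add_distrib, ← mul_sum] at h5
  have h6 : H * ∑ o ∈ range d, ((range r).filter fun t => N t ∧
        ∃ k < D, (p t k + o) / d ≠ (p (t + 1) k + o) / d).card +
      ∑ o ∈ range d, ((range r).filter fun t =>
        ∃ k < D, (p t k + o) / d ≠ (p (t + 1) k + o) / d).card ≤
      D * (H * ((range r).filter N).card + r) := by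
    have := Nat.mul_le_mul_left H h2
    calc _ ≤ H * (D * ((range r).filter N).card) + D * r := Nat.add_le_add this h1
      _ = _ := by ring
  exact absurd (Nat.mul_le_mul_left d h6) (not_le.2 h5)

end Pool.Agent.Helper24.OH2
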